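import Pool.Agent.H7.GF.Targets3
import Pool.Agent.H27.LS.Additive

/-!
SIEVE: sieve by nonresidues, by helper74.
-/

set_option autoImplicit false

namespace Pool.Agent.H74.GF

open Pool.Agent.H7.GF Pool.Agent.H27.LS Finset

/-- the exponential sum of the set `S` -/
noncomputable def TS (S : Finset ℕ) (x : ℝ) : ℂ :=
  ∑ n ∈ S, Complex.exp (2 * Real.pi * Complex.I * n * x)

theorem trig_ind (S : Finset ℕ) (N : ℕ) (hS : S ⊆ range N) (x : ℝ) :
    trig (fun n => if n ∈ S then 1 else 0) N x = TS S x := by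
  unfold trig TS
  simp only [ite_mul, one_mul, zero_mul]
  rw [← Finset.sum_filter]
  congr 1
  ext n
  simp only [mem_filter, mem_range]
  constructor
  · exact fun h => h.2
  · exact fun h => ⟨mem_range.1 (hS h), h⟩

theorem geom (p : ℕ) (hp : 0 < p) (m n : ℕ) :
    ∑ j ∈ range p, Complex.exp (2 * Real.pi * Complex.I * m * ((j : ℝ) / p : ℝ)) *
      (starRingEnd ℂ) (Complex.exp (2 * Real.pi * Complex.I * n * ((j : ℝ) / p : ℝ))) =
      if ((m : ZMod p) = (n : ZMod p)) then (p : ℂ) else 0 := by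
  have hpc : (p : ℂ) ≠ 0 := by exact_mod_cast hp.ne'
  have h1 : ∀ j : ℕ, Complex.exp (2 * Real.pi * Complex.I * m * ((j : ℝ) / p : ℝ)) *
      (starRingEnd ℂ) (Complex.exp (2 * Real.pi * Complex.I * n * ((j : ℝ) / p : ℝ))) =
      Complex.exp (2 * Real.pi * Complex.I * ((m : ℂ) - n) / p) ^ j := by
    intro j
    rw [← Complex.exp_conj, ← Complex.exp_add, ← Complex.exp_nat_mul]
    congr 1
    simp only [map_mul, Complex.conj_I, Complex.conj_ofReal, map_ofNat, map_natCast]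
    push_cast
    field_simp
    ring
  simp only [h1]
  have hiff : ((m : ZMod p) = (n : ZMod p)) ↔ ∃ c : ℤ, (m : ℤ) - n = p * c := by
    rw [← sub_eq_zero]
    have h2 : (m : ZMod p) - (n : ZMod p) = (((m : ℤ) - n : ℤ) : ZMod p) := by push_cast; rfl
    rw [h2, ZMod.intCast_zmod_eq_zero_iff_dvd]
    rfl
  split_ifs with h
  · obtain ⟨c, hc⟩ := hiff.1 h
    have h3 : Complex.exp (2 * Real.pi * Complex.I * ((m : ℂ) - n) / p) = 1 := by
      rw [Complex.exp_eq_one_iff]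
      refine ⟨c, ?_⟩
      have h4 : ((m : ℂ) - n) = p * c := by exact_mod_cast hc
      rw [h4]
      field_simp
    rw [h3]
    simp
  · have h3 : Complex.exp (2 * Real.pi * Complex.I * ((m : ℂ) - n) / p) ≠ 1 := by
      intro h4
      rw [Complex.exp_eq_one_iff] at h4
      obtain ⟨c, hc⟩ := h4
      apply h
      rw [hiff]
      refine ⟨c, ?_⟩
      have h5 : ((m : ℂ) - n) = p * c := by
        have h6 : (2 * Real.pi * Complex.I : ℂ) ≠ 0 := Complex.two_pi_I_ne_zero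
        field_simp at hc
        have h7 : (2 * Real.pi * Complex.I : ℂ) * ((m : ℂ) - n) = 2 * Real.pi * Complex.I * (p * c) := by
          linear_combination (2 * Real.pi * Complex.I) * hc
        exact mul_left_cancel₀ h6 h7
      exact_mod_cast h5
    rw [geom_sum_eq h3]
    have h4 : Complex.exp (2 * Real.pi * Complex.I * ((m : ℂ) - n) / p) ^ p = 1 := by
      rw [← Complex.exp_nat_mul, Complex.exp_eq_one_iff]
      refine ⟨(m : ℤ) - n, ?_⟩
      push_cast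
      field_simp
    rw [h4, sub_self, zero_div]

theorem norm_sum (S : Finset ℕ) (p : ℕ) (hp : 0 < p) :
    ∑ j ∈ range p, ‖TS S ((j : ℝ) / p)‖ ^ 2 =
      p * (((S ×ˢ S).filter fun z => (z.1 : ZMod p) = (z.2 : ZMod p)).card : ℝ) := by
  have h1 : ∀ z : ℂ, ((‖z‖ ^ 2 : ℝ) : ℂ) = z * (starRingEnd ℂ) z := fun z => by
    rw [Complex.mul_conj, Complex.normSq_eq_norm_sq]
  have h2 : ((∑ j ∈ range p, ‖TS S ((j : ℝ) / p)‖ ^ 2 : ℝ) : ℂ) =
      ((p * (((S ×ˢ S).filter fun z => (z.1 : ZMod p) = (z.2 : ZMod p)).card : ℝ) : ℝ) : ℂ) := by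
    rw [Complex.ofReal_sum]
    simp only [h1]
    unfold TS
    simp only [map_sum, Finset.sum_mul_sum]
    rw [Finset.sum_comm]
    have h3 : ∀ m ∈ S, ∑ j ∈ range p, ∑ n ∈ S,
        Complex.exp (2 * Real.pi * Complex.I * m * ((j : ℝ) / p : ℝ)) *
          (starRingEnd ℂ) (Complex.exp (2 * Real.pi * Complex.I * n * ((j : ℝ) / p : ℝ))) =
        ∑ n ∈ S, if ((m : ZMod p) = (n : ZMod p)) then (p : ℂ) else 0 := by
      intro m _
      rw [Finset.sum_comm]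
      exact Finset.sum_congr rfl fun n _ => geom p hp m n
    rw [Finset.sum_congr rfl h3, ← Finset.sum_product', ← Finset.sum_filter, Finset.sum_const,
      nsmul_eq_mul]
    push_cast
    ring
  exact_mod_cast h2

theorem pairs (S : Finset ℕ) (p : ℕ) [NeZero p] (Z : Finset (ZMod p))
    (hZ : ∀ n ∈ S, (n : ZMod p) ∉ Z) :
    (S.card : ℝ) ^ 2 ≤ ((p : ℝ) - Z.card) *
      (((S ×ˢ S).filter fun z => (z.1 : ZMod p) = (z.2 : ZMod p)).card : ℝ) := by
  classical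
  have h1 : S.card = ∑ h ∈ Zᶜ, (S.filter fun n : ℕ => (n : ZMod p) = h).card :=
    Finset.card_eq_sum_card_fiberwise (f := fun n : ℕ => (n : ZMod p)) (t := Zᶜ) fun n hn => by
      simpa using hZ n hn
  have h2 : ((S ×ˢ S).filter fun z => (z.1 : ZMod p) = (z.2 : ZMod p)).card =
      ∑ h ∈ Zᶜ, (S.filter fun n : ℕ => (n : ZMod p) = h).card ^ 2 := by
    rw [Finset.card_eq_sum_card_fiberwise (f := fun z : ℕ × ℕ => (z.1 : ZMod p)) (t := Zᶜ)]
    · refine Finset.sum_congr rfl fun h _ => ?_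
      rw [sq, ← Finset.card_product]
      congr 1
      ext z
      simp only [mem_filter, mem_product]
      constructor
      · rintro ⟨⟨⟨h1, h2⟩, h3⟩, h4⟩
        exact ⟨⟨h1, h4⟩, h2, by rw [← h3, h4]⟩
      · rintro ⟨⟨h1, h4⟩, h2, h3⟩
        exact ⟨⟨⟨h1, h2⟩, by rw [h4, h3]⟩, h4⟩
    · intro z hz
      have hz' := Finset.mem_coe.1 hz
      rw [mem_filter, mem_product] at hz'
      simpa using hZ z.1 hz'.1.1
  have h3 := sq_sum_le_card_mul_sum_sq (s := Zᶜ)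
    (f := fun h => ((S.filter fun n : ℕ => (n : ZMod p) = h).card : ℝ))
  have h4 : ((Zᶜ : Finset (ZMod p)).card : ℝ) = (p : ℝ) - Z.card := by
    rw [Finset.card_compl, ZMod.card, Nat.cast_sub]
    have := Finset.card_le_univ Z
    rwa [ZMod.card] at this
  rw [h4] at h3
  rw [h2, h1]
  push_cast
  exact h3

theorem local_lower (S : Finset ℕ) (p : ℕ) (hp : p.Prime) (Z : Finset (ZMod p))
    (hZ : ∀ n ∈ S, (n : ZMod p) ∉ Z) (hc : (p : ℝ) / 4 ≤ (Z.card : ℝ)) :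
    (S.card : ℝ) ^ 2 / 3 ≤ ∑ j ∈ Ico 1 p, ‖TS S ((j : ℝ) / p)‖ ^ 2 := by
  have : NeZero p := ⟨hp.ne_zero⟩
  have hp0 : 0 < p := hp.pos
  have h1 := norm_sum S p hp0
  have h2 := pairs S p Z hZ
  have h3 : ∑ j ∈ range p, ‖TS S ((j : ℝ) / p)‖ ^ 2 =
      ‖TS S 0‖ ^ 2 + ∑ j ∈ Ico 1 p, ‖TS S ((j : ℝ) / p)‖ ^ 2 := by
    rw [Finset.range_eq_Ico, Finset.sum_eq_sum_Ico_succ_bot hp0]
    simp
  have h4 : TS S 0 = S.card := by
    unfold TS
    simp
  rw [h4, Complex.norm_natCast] at h3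
  set E : ℝ := (((S ×ˢ S).filter fun z => (z.1 : ZMod p) = (z.2 : ZMod p)).card : ℝ) with hE
  have hE0 : 0 ≤ E := Nat.cast_nonneg _
  have h5 : (S.card : ℝ) ^ 2 ≤ (3 * (p : ℝ) / 4) * E := by
    refine h2.trans (mul_le_mul_of_nonneg_right ?_ hE0)
    linarith
  nlinarith

theorem sieve : T_SIEVE := by
  refine ⟨12 * Real.pi, fun N Q S P Z hN hQ hS hP hZ hc => ?_⟩
  classical
  have hQ' : (1 : ℝ) ≤ Q := by exact_mod_cast hQ
  let δ : ℝ := 1 / (Q : ℝ) ^ 2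
  have hδ : 0 < δ := by positivity
  let s : Finset (Σ _ : ℕ, ℕ) := P.sigma fun p => Ico 1 p
  let r : (Σ _ : ℕ, ℕ) → ℝ := fun z => (z.2 : ℝ) / z.1
  have hmem : ∀ z ∈ s, z.1.Prime ∧ z.1 ≤ Q ∧ 1 ≤ z.2 ∧ z.2 < z.1 := by
    intro z hz
    obtain ⟨h1, h2⟩ := Finset.mem_sigma.1 hz
    exact ⟨(hP _ h1).1, (hP _ h1).2, (Finset.mem_Ico.1 h2).1, (Finset.mem_Ico.1 h2).2⟩
  have hbase : ∀ q : ℕ, 0 < q → q ≤ Q → δ / 2 ≤ 1 / (q : ℝ) := by
    intro q hq hqQ
    have h1 : (0 : ℝ) < q := by exact_mod_cast hq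
    have h2 : (q : ℝ) ≤ Q := by exact_mod_cast hqQ
    have h3 : (q : ℝ) ≤ 2 * (Q : ℝ) ^ 2 := by nlinarith
    change 1 / (Q : ℝ) ^ 2 / 2 ≤ 1 / (q : ℝ)
    rw [div_div, one_div_le_one_div (by positivity) h1]
    linarith
  have hr : ∀ z ∈ s, δ / 2 ≤ r z ∧ r z ≤ 1 - δ / 2 := by
    intro z hz
    obtain ⟨h1, h2, h3, h4⟩ := hmem z hz
    have h5 : (0 : ℝ) < z.1 := by exact_mod_cast h1.pos
    have h6 := hbase z.1 h1.pos h2
    have h7 : (1 : ℝ) ≤ z.2 := by exact_mod_cast h3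
    have h8 : (z.2 : ℝ) + 1 ≤ z.1 := by exact_mod_cast h4
    constructor
    · refine h6.trans ?_
      exact div_le_div_of_nonneg_right h7 h5.le
    · have h9 : r z ≤ 1 - 1 / (z.1 : ℝ) := by
        change (z.2 : ℝ) / z.1 ≤ 1 - 1 / (z.1 : ℝ)
        rw [div_le_iff₀ h5]
        have h10 : (1 - 1 / (z.1 : ℝ)) * z.1 = z.1 - 1 := by field_simp
        rw [h10]
        linarith
      linarith
  have hsp : ∀ z ∈ s, ∀ z' ∈ s, z ≠ z' → δ ≤ |r z - r z'| := by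
    intro z hz z' hz' hne
    obtain ⟨h1, h2, h3, h4⟩ := hmem z hz
    obtain ⟨h1', h2', h3', h4'⟩ := hmem z' hz'
    have h5 : (0 : ℝ) < z.1 := by exact_mod_cast h1.pos
    have h5' : (0 : ℝ) < z'.1 := by exact_mod_cast h1'.pos
    have hne2 : (z.2 : ℤ) * z'.1 - z'.2 * z.1 ≠ 0 := by
      intro h0
      have h6 : z.2 * z'.1 = z'.2 * z.1 := by
        have : (z.2 : ℤ) * z'.1 = z'.2 * z.1 := by linarith
        exact_mod_cast this
      apply hne
      have h7 : z.1 = z'.1 := by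
        have h8 : z.1 ∣ z.2 * z'.1 := ⟨z'.2, by rw [h6]; ring⟩
        rcases (Nat.Prime.dvd_mul h1).1 h8 with h9 | h9
        · exact absurd (Nat.le_of_dvd (by omega) h9) (by omega)
        · exact (Nat.prime_dvd_prime_iff_eq h1 h1').1 h9
      have h8 : z.2 = z'.2 := by
        rw [← h7] at h6
        exact Nat.eq_of_mul_eq_mul_right h1.pos h6
      cases z
      cases z'
      simp only at h7 h8
      rw [h7, h8]
    have h6 : (1 : ℝ) ≤ |(z.2 : ℝ) * z'.1 - z'.2 * z.1| := by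
      have h7 : (1 : ℤ) ≤ |(z.2 : ℤ) * z'.1 - z'.2 * z.1| := Int.one_le_abs hne2
      exact_mod_cast h7
    have h7 : r z - r z' = ((z.2 : ℝ) * z'.1 - z'.2 * z.1) / (z.1 * z'.1) := by
      change (z.2 : ℝ) / z.1 - (z'.2 : ℝ) / z'.1 = _
      field_simp
    rw [h7, abs_div, abs_of_pos (mul_pos h5 h5')]
    change 1 / (Q : ℝ) ^ 2 ≤ _
    have h8 : (z.1 : ℝ) * z'.1 ≤ (Q : ℝ) ^ 2 := by
      have h9 : (z.1 : ℝ) ≤ Q := by exact_mod_cast h2
      have h10 : (z'.1 : ℝ) ≤ Q := by exact_mod_cast h2'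
      nlinarith
    exact div_le_div₀ (abs_nonneg _) h6 (mul_pos h5 h5') h8
  have hL := additive_large_sieve (fun n => if n ∈ S then 1 else 0) N hδ s r hr hsp
  simp only [trig_ind S N hS] at hL
  have hR : ∑ n ∈ range N, ‖(if n ∈ S then (1 : ℂ) else 0)‖ ^ 2 = S.card := by
    have h1 : ∀ n, ‖(if n ∈ S then (1 : ℂ) else 0)‖ ^ 2 = if n ∈ S then (1 : ℝ) else 0 := by
      intro n
      split_ifs <;> simp
    simp only [h1]
    rw [← Finset.sum_filter, Finset.sum_const, nsmul_eq_mul, mul_one]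
    congr 2
    ext n
    simp only [mem_filter]
    exact ⟨fun h => h.2, fun h => ⟨hS h, h⟩⟩
  rw [hR] at hL
  have hlow : (P.card : ℝ) * ((S.card : ℝ) ^ 2 / 3) ≤ ∑ z ∈ s, ‖TS S (r z)‖ ^ 2 := by
    rw [Finset.sum_sigma]
    calc (P.card : ℝ) * ((S.card : ℝ) ^ 2 / 3) = ∑ _p ∈ P, (S.card : ℝ) ^ 2 / 3 := by
          rw [Finset.sum_const, nsmul_eq_mul]
      _ ≤ _ := Finset.sum_le_sum fun p hp =>
          local_lower S p (hP p hp).1 (Z p) (hZ p hp) (hc p hp)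
  have hδi : δ⁻¹ = (Q : ℝ) ^ 2 := by
    change (1 / (Q : ℝ) ^ 2)⁻¹ = _
    rw [one_div, inv_inv]
  rw [hδi] at hL
  rcases Nat.eq_zero_or_pos S.card with h0 | hpos
  · rw [h0]
    have := Real.pi_pos
    simp only [Nat.cast_zero, zero_mul]
    positivity
  · have hSp : (0 : ℝ) < S.card := by exact_mod_cast hpos
    have h1 : (S.card : ℝ) * ((P.card : ℝ) * ((S.card : ℝ) / 3)) ≤
        (S.card : ℝ) * ((Q : ℝ) ^ 2 + 4 * Real.pi * N) := by
      have h2 := hlow.trans hL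
      nlinarith
    have h2 := le_of_mul_le_mul_left h1 hSp
    have h3 : (1 : ℝ) ≤ 4 * Real.pi := by
      have := Real.pi_gt_three
      linarith
    have h4 : (0 : ℝ) ≤ (Q : ℝ) ^ 2 := by positivity
    have h5 : (Q : ℝ) ^ 2 ≤ 4 * Real.pi * (Q : ℝ) ^ 2 := by nlinarith
    nlinarith

end Pool.Agent.H74.GF
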