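import Pool.Agent.H7.GF.Targets3

/-!
MCNT: number of solutions of the system of power sums, by helper74.
-/

set_option autoImplicit false

namespace Pool.Agent.H74.GF

open Pool.Agent.H7.GF Polynomial

section

variable {F : Type} [Field F]

theorem mcnt_id3 (a b c d e f : F) (ha : a ≠ 0) (hb : b ≠ 0) (hc : c ≠ 0) (hd : d ≠ 0)
    (he : e ≠ 0) (hf : f ≠ 0) :
    (a*b*c*d*e*f) * ((a⁻¹+b⁻¹+c⁻¹+d⁻¹+e⁻¹+f⁻¹)^3 - 3*(a⁻¹+b⁻¹+c⁻¹+d⁻¹+e⁻¹+f⁻¹)*(a⁻¹^2+b⁻¹^2+c⁻¹^2+d⁻¹^2+e⁻¹^2+f⁻¹^2)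
      + 2*(a⁻¹^3+b⁻¹^3+c⁻¹^3+d⁻¹^3+e⁻¹^3+f⁻¹^3)) =
    (a+b+c+d+e+f)^3 - 3*(a+b+c+d+e+f)*(a^2+b^2+c^2+d^2+e^2+f^2) + 2*(a^3+b^3+c^3+d^3+e^3+f^3) := by
  field_simp
  ring

theorem mcnt_id6 (a b c d e f t : F) (ha : a ≠ 0) (hb : b ≠ 0) (hc : c ≠ 0) (hd : d ≠ 0)
    (he : e ≠ 0) (hf : f ≠ 0) :
    6*((t-a)*(t-b)*(t-c)*(t-d)*(t-e)*(t-f)) =
    6*t^6 - 6*(a+b+c+d+e+f)*t^5 + 3*((a+b+c+d+e+f)^2 - (a^2+b^2+c^2+d^2+e^2+f^2))*t^4
    - ((a+b+c+d+e+f)^3 - 3*(a+b+c+d+e+f)*(a^2+b^2+c^2+d^2+e^2+f^2) + 2*(a^3+b^3+c^3+d^3+e^3+f^3))*t^3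
    + (a*b*c*d*e*f) * (3*((a⁻¹+b⁻¹+c⁻¹+d⁻¹+e⁻¹+f⁻¹)^2 - (a⁻¹^2+b⁻¹^2+c⁻¹^2+d⁻¹^2+e⁻¹^2+f⁻¹^2))*t^2
      - 6*(a⁻¹+b⁻¹+c⁻¹+d⁻¹+e⁻¹+f⁻¹)*t + 6) := by
  field_simp
  ring

/-- power sums -/
def ps (j : ℕ) (x : Fin 6 → Fˣ) : F := ∑ i, ((x i : Fˣ) : F) ^ j

/-- power sums of the inverses -/
def pr (j : ℕ) (x : Fin 6 → Fˣ) : F := ∑ i, (((x i)⁻¹ : Fˣ) : F) ^ j

/-- product -/
def pq (x : Fin 6 → Fˣ) : F := ∏ i, ((x i : Fˣ) : F)

/-- six times the third elementary symmetric function -/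
def E3 (x : Fin 6 → Fˣ) : F := ps 1 x ^ 3 - 3 * ps 1 x * ps 2 x + 2 * ps 3 x

/-- the same for the inverses -/
def R3 (x : Fin 6 → Fˣ) : F := pr 1 x ^ 3 - 3 * pr 1 x * pr 2 x + 2 * pr 3 x

/-- the polynomial -/
noncomputable def GG (s1 s2 s3 r1 r2 a : F) : F[X] :=
  C 6 * X ^ 6 - C (6 * s1) * X ^ 5 + C (3 * (s1 ^ 2 - s2)) * X ^ 4 -
    C (s1 ^ 3 - 3 * s1 * s2 + 2 * s3) * X ^ 3 + C (a * (3 * (r1 ^ 2 - r2))) * X ^ 2 -
    C (a * (6 * r1)) * X + C (a * 6)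

theorem mcnt_E3 (x : Fin 6 → Fˣ) : pq x * R3 x = E3 x := by
  have h := mcnt_id3 (x 0 : F) (x 1) (x 2) (x 3) (x 4) (x 5) (x 0).ne_zero (x 1).ne_zero
    (x 2).ne_zero (x 3).ne_zero (x 4).ne_zero (x 5).ne_zero
  unfold pq R3 E3 ps pr
  simp only [Fin.sum_univ_six, Fin.prod_univ_six, Units.val_inv_eq_inv_val, pow_one]
  exact h

theorem mcnt_root (x : Fin 6 → Fˣ) (i : Fin 6) :
    (GG (ps 1 x) (ps 2 x) (ps 3 x) (pr 1 x) (pr 2 x) (pq x)).IsRoot ((x i : Fˣ) : F) := by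
  have h := mcnt_id6 (x 0 : F) (x 1) (x 2) (x 3) (x 4) (x 5) (x i) (x 0).ne_zero (x 1).ne_zero
    (x 2).ne_zero (x 3).ne_zero (x 4).ne_zero (x 5).ne_zero
  have h0 : (6 : F)*(((x i : F)-(x 0 : F))*((x i : F)-(x 1 : F))*((x i : F)-(x 2 : F))*
      ((x i : F)-(x 3 : F))*((x i : F)-(x 4 : F))*((x i : F)-(x 5 : F))) = 0 := by
    fin_cases i <;> simp
  rw [h0] at h
  unfold GG
  rw [Polynomial.IsRoot.def]
  simp only [eval_add, eval_sub, eval_mul, eval_C, eval_pow, eval_X]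
  unfold pq ps pr
  simp only [Fin.sum_univ_six, Fin.prod_univ_six, Units.val_inv_eq_inv_val, pow_one]
  rw [eq_comm]
  refine h.trans ?_
  ring

theorem mcnt_ne (h6 : (6 : F) ≠ 0) (s1 s2 s3 r1 r2 a : F) : GG s1 s2 s3 r1 r2 a ≠ 0 := by
  intro h
  have h1 : (GG s1 s2 s3 r1 r2 a).coeff 6 = 6 := by
    unfold GG
    simp only [coeff_add, coeff_sub, coeff_C_mul, coeff_X_pow, coeff_X, coeff_C]
    norm_num
  rw [h, coeff_zero] at h1
  exact h6 h1.symm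

theorem mcnt_deg (s1 s2 s3 r1 r2 a : F) : (GG s1 s2 s3 r1 r2 a).natDegree ≤ 6 := by
  unfold GG
  compute_degree

end

section

variable {F : Type} [Field F] [Fintype F] [DecidableEq F]

/-- few `x` with given data -/
theorem mcnt_fibre (h6 : (6 : F) ≠ 0) (s1 s2 s3 r1 r2 a : F) :
    (Finset.univ.filter fun x : Fin 6 → Fˣ => ps 1 x = s1 ∧ ps 2 x = s2 ∧ ps 3 x = s3 ∧
      pr 1 x = r1 ∧ pr 2 x = r2 ∧ pq x = a).card ≤ 6 ^ 6 := by
  classical
  let R := (GG s1 s2 s3 r1 r2 a).roots.toFinset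
  have hR : R.card ≤ 6 :=
    (Multiset.toFinset_card_le _).trans ((card_roots' _).trans (mcnt_deg _ _ _ _ _ _))
  have h1 : (Fintype.piFinset fun _ : Fin 6 => R).card ≤ 6 ^ 6 := by
    rw [Fintype.card_piFinset_const]
    exact Nat.pow_le_pow_left hR 6
  refine le_trans (Finset.card_le_card_of_injOn (fun x i => ((x i : Fˣ) : F)) ?_ ?_) h1
  · intro x hx
    have hx' := (Finset.mem_filter.1 (Finset.mem_coe.1 hx)).2
    obtain ⟨h1, h2, h3, h4, h5, h7⟩ := hx'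
    rw [Finset.mem_coe, Fintype.mem_piFinset]
    intro i
    rw [Multiset.mem_toFinset, mem_roots (mcnt_ne h6 _ _ _ _ _ _)]
    have h8 := mcnt_root x i
    rw [h1, h2, h3, h4, h5, h7] at h8
    exact h8
  · intro x _ y _ hxy
    funext i
    exact Units.ext (congrFun hxy i)

/-- the polynomial for `E3` -/
noncomputable def P3 : MvPolynomial (Fin 6) F :=
  (∑ i, MvPolynomial.X i) ^ 3 - 3 * (∑ i, MvPolynomial.X i) * (∑ i, MvPolynomial.X i ^ 2) +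
    2 * ∑ i, MvPolynomial.X i ^ 3

theorem P3_eval (x : Fin 6 → F) : MvPolynomial.eval x P3 =
    (∑ i, x i) ^ 3 - 3 * (∑ i, x i) * (∑ i, x i ^ 2) + 2 * ∑ i, x i ^ 3 := by
  unfold P3
  simp

theorem P3_ne (h6 : (6 : F) ≠ 0) : (P3 : MvPolynomial (Fin 6) F) ≠ 0 := by
  intro h
  have h1 := P3_eval (F := F) ![1, 1, 1, 0, 0, 0]
  rw [h, map_zero] at h1
  simp only [Fin.sum_univ_six] at h1
  apply h6
  rw [eq_comm] at h1
  refine Eq.trans ?_ h1
  simp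
  ring

theorem P3_deg : (P3 : MvPolynomial (Fin 6) F).totalDegree ≤ 3 := by
  have hX : ∀ j : ℕ, (∑ i : Fin 6, (MvPolynomial.X i : MvPolynomial (Fin 6) F) ^ j).totalDegree ≤ j := by
    intro j
    refine (MvPolynomial.totalDegree_finsetSum _ _).trans (Finset.sup_le fun i _ => ?_)
    rw [MvPolynomial.totalDegree_X_pow]
  have hX1 : (∑ i : Fin 6, (MvPolynomial.X i : MvPolynomial (Fin 6) F)).totalDegree ≤ 1 := by
    have := hX 1
    simpa using this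
  have h3 : (3 : MvPolynomial (Fin 6) F).totalDegree = 0 := MvPolynomial.totalDegree_C (3 : F)
  have h2 : (2 : MvPolynomial (Fin 6) F).totalDegree = 0 := MvPolynomial.totalDegree_C (2 : F)
  unfold P3
  refine (MvPolynomial.totalDegree_add _ _).trans (max_le ((MvPolynomial.totalDegree_sub _ _).trans
    (max_le ?_ ?_)) ?_)
  · refine (MvPolynomial.totalDegree_pow _ _).trans ?_
    omega
  · refine (MvPolynomial.totalDegree_mul _ _).trans ?_
    have h4 := MvPolynomial.totalDegree_mul (3 : MvPolynomial (Fin 6) F) (∑ i, MvPolynomial.X i)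
    have h5 := hX 2
    omega
  · refine (MvPolynomial.totalDegree_mul _ _).trans ?_
    have h5 := hX 3
    omega

theorem mcnt_zeros (h6 : (6 : F) ≠ 0) :
    (Finset.univ.filter fun x : Fin 6 → Fˣ => E3 x = 0).card ≤ 3 * Fintype.card F ^ 5 := by
  classical
  have hF : 0 < Fintype.card F := Fintype.card_pos
  have h1 := MvPolynomial.schwartz_zippel_totalDegree (P3_ne h6) (Finset.univ : Finset F)
  have h2 : (Finset.univ.filter fun x : Fin 6 → Fˣ => E3 x = 0).card ≤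
      (Finset.filter (fun f => MvPolynomial.eval f (P3 : MvPolynomial (Fin 6) F) = 0)
        (Fintype.piFinset fun _ => (Finset.univ : Finset F))).card := by
    refine Finset.card_le_card_of_injOn (fun x i => ((x i : Fˣ) : F)) ?_ ?_
    · intro x hx
      have hx' := (Finset.mem_filter.1 (Finset.mem_coe.1 hx)).2
      rw [Finset.mem_coe, Finset.mem_filter]
      refine ⟨by simp, ?_⟩
      rw [P3_eval]
      unfold E3 ps at hx'
      simpa using hx'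
    · intro x _ y _ hxy
      funext i
      exact Units.ext (congrFun hxy i)
  refine h2.trans ?_
  rw [Finset.card_univ, div_le_div_iff₀ (by positivity) (by positivity)] at h1
  set N := (Finset.filter (fun f => MvPolynomial.eval f (P3 : MvPolynomial (Fin 6) F) = 0)
        (Fintype.piFinset fun _ => (Finset.univ : Finset F))).card
  have h3 : N * Fintype.card F ≤ (P3 : MvPolynomial (Fin 6) F).totalDegree * Fintype.card F ^ 6 := by
    exact_mod_cast h1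
  have h4 : N * Fintype.card F ≤ (3 * Fintype.card F ^ 5) * Fintype.card F := by
    refine h3.trans ?_
    have h5 := Nat.mul_le_mul_right (Fintype.card F ^ 6) (P3_deg (F := F))
    refine h5.trans (le_of_eq ?_)
    ring
  exact Nat.le_of_mul_le_mul_right h4 hF

end

theorem mcnt : T_MCNT := by
  refine ⟨4 * 6 ^ 6, fun p hp hp7 => ?_⟩
  classical
  have h6 : (6 : ZMod p) ≠ 0 := by
    intro h
    have h1 : ((6 : ℕ) : ZMod p) = 0 := by exact_mod_cast h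
    rw [ZMod.natCast_eq_zero_iff] at h1
    exact absurd (Nat.le_of_dvd (by norm_num) h1) (by omega)
  let T : Finset ((Fin 6 → (ZMod p)ˣ) × (Fin 6 → (ZMod p)ˣ)) :=
    Finset.univ.filter fun z => ps 1 z.1 = ps 1 z.2 ∧ ps 2 z.1 = ps 2 z.2 ∧ ps 3 z.1 = ps 3 z.2 ∧
      pr 1 z.1 = pr 1 z.2 ∧ pr 2 z.1 = pr 2 z.2 ∧ pr 3 z.1 = pr 3 z.2
  have hsub : {x : (Fin 6 → (ZMod p)ˣ) × (Fin 6 → (ZMod p)ˣ) | ∀ j : ℕ, 1 ≤ j → j ≤ 3 →
      ∑ i, ((x.1 i : (ZMod p)ˣ) : ZMod p) ^ j = ∑ i, ((x.2 i : (ZMod p)ˣ) : ZMod p) ^ j ∧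
      ∑ i, (((x.1 i)⁻¹ : (ZMod p)ˣ) : ZMod p) ^ j =
        ∑ i, (((x.2 i)⁻¹ : (ZMod p)ˣ) : ZMod p) ^ j} ⊆ (T : Set _) := by
    intro z hz
    rw [Finset.mem_coe, Finset.mem_filter]
    exact ⟨Finset.mem_univ _, (hz 1 le_rfl (by norm_num)).1, (hz 2 (by norm_num) (by norm_num)).1,
      (hz 3 (by norm_num) le_rfl).1, (hz 1 le_rfl (by norm_num)).2,
      (hz 2 (by norm_num) (by norm_num)).2, (hz 3 (by norm_num) le_rfl).2⟩
  refine (Set.ncard_le_ncard hsub T.finite_toSet).trans ?_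
  rw [Set.ncard_coe_finset]
  let f : (Fin 6 → (ZMod p)ˣ) × (Fin 6 → (ZMod p)ˣ) → (Fin 6 → (ZMod p)ˣ) × ZMod p :=
    fun z => (z.2, pq z.1)
  have hfib : ∀ b ∈ T.image f, (T.filter fun a => f a = b).card ≤ 6 ^ 6 := by
    rintro ⟨y, a⟩ _
    refine le_trans (Finset.card_le_card_of_injOn Prod.fst ?_ ?_)
      (mcnt_fibre h6 (ps 1 y) (ps 2 y) (ps 3 y) (pr 1 y) (pr 2 y) a)
    · rintro ⟨x, y'⟩ hz
      have hz' := Finset.mem_filter.1 (Finset.mem_coe.1 hz)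
      obtain ⟨h1, h2⟩ := hz'
      have h3 : y' = y := congrArg Prod.fst h2
      have h4 : pq x = a := congrArg Prod.snd h2
      subst h3
      obtain ⟨h5, h6, h7, h8, h9, h10⟩ := (Finset.mem_filter.1 h1).2
      rw [Finset.mem_coe, Finset.mem_filter]
      exact ⟨Finset.mem_univ _, h5, h6, h7, h8, h9, h4⟩
    · rintro ⟨x, y'⟩ hz ⟨x', y''⟩ hz' hxx
      have h1 := (Finset.mem_filter.1 (Finset.mem_coe.1 hz)).2
      have h2 := (Finset.mem_filter.1 (Finset.mem_coe.1 hz')).2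
      have h3 : y' = y := congrArg Prod.fst h1
      have h4 : y'' = y := congrArg Prod.fst h2
      have h5 : x = x' := hxx
      rw [h3, h4, h5]
  have h1 := Finset.card_le_mul_card_image T (6 ^ 6) hfib
  refine h1.trans ?_
  let B1 : Finset ((Fin 6 → (ZMod p)ˣ) × ZMod p) :=
    Finset.univ.image fun y : Fin 6 → (ZMod p)ˣ => (y, E3 y / R3 y)
  let B2 : Finset ((Fin 6 → (ZMod p)ˣ) × ZMod p) :=
    (Finset.univ.filter fun y : Fin 6 → (ZMod p)ˣ => E3 y = 0) ×ˢ Finset.univ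
  have hB : T.image f ⊆ B1 ∪ B2 := by
    intro w hw
    obtain ⟨⟨x, y⟩, hz, rfl⟩ := Finset.mem_image.1 hw
    obtain ⟨h5, h6, h7, h8, h9, h10⟩ := (Finset.mem_filter.1 hz).2
    simp only at h5 h6 h7 h8 h9 h10
    have hE : E3 x = E3 y := by
      unfold E3
      rw [h5, h6, h7]
    have hR : R3 x = R3 y := by
      unfold R3
      rw [h8, h9, h10]
    rw [Finset.mem_union]
    by_cases h0 : E3 y = 0
    · right
      exact Finset.mem_product.2 ⟨Finset.mem_filter.2 ⟨Finset.mem_univ _, h0⟩, Finset.mem_univ _⟩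
    · left
      refine Finset.mem_image.2 ⟨y, Finset.mem_univ _, ?_⟩
      have h11 := mcnt_E3 x
      rw [hE, hR] at h11
      have h12 : R3 y ≠ 0 := by
        intro h12
        rw [h12, mul_zero] at h11
        exact h0 h11.symm
      change (y, E3 y / R3 y) = (y, pq x)
      rw [← h11, mul_div_assoc, div_self h12, mul_one]
  have hp0 : 0 < p := hp.out.pos
  have hc1 : B1.card ≤ p ^ 6 := by
    refine Finset.card_image_le.trans ?_
    rw [Finset.card_univ, Fintype.card_pi, Finset.prod_const, Finset.card_univ, Fintype.card_fin,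
      ZMod.card_units]
    exact Nat.pow_le_pow_left (Nat.sub_le _ _) 6
  have hc2 : B2.card ≤ 3 * p ^ 5 * p := by
    rw [Finset.card_product, Finset.card_univ, ZMod.card]
    refine Nat.mul_le_mul_right p ?_
    have := mcnt_zeros (F := ZMod p) h6
    rwa [ZMod.card] at this
  have hc : (T.image f).card ≤ 4 * p ^ 6 := by
    refine (Finset.card_le_card hB).trans ((Finset.card_union_le _ _).trans ?_)
    have : 3 * p ^ 5 * p = 3 * p ^ 6 := by ring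
    omega
  calc 6 ^ 6 * (T.image f).card ≤ 6 ^ 6 * (4 * p ^ 6) := Nat.mul_le_mul_left _ hc
    _ = 4 * 6 ^ 6 * p ^ 6 := by ring

end Pool.Agent.H74.GF
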